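import Mathlib

open Filter Topology Set MeasureTheory

namespace Pool.Agent.Results.MP_942486_an.LimsupNotConstant

noncomputable section

/-! ### Mixing of `x ↦ a x mod 1` -/

/-- the set where the fractional part of `a x` is below `γ` -/
def FS (a : ℕ) (γ : ℝ) : Set ℝ := {x | Int.fract ((a : ℝ) * x) < γ}

lemma FS_meas (a : ℕ) (γ : ℝ) : MeasurableSet (FS a γ) :=
  measurableSet_lt (measurable_fract.comp (measurable_const.mul measurable_id)) measurable_const

lemma cell {a : ℕ} (ha : 0 < a) {γ : ℝ} (h0 : 0 ≤ γ) (h1 : γ ≤ 1) (j : ℕ) :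
    Ico ((j : ℝ) / a) (((j : ℝ) + 1) / a) ∩ FS a γ = Ico ((j : ℝ) / a) (((j : ℝ) + γ) / a) := by
  have ha' : (0 : ℝ) < a := by exact_mod_cast ha
  ext x
  simp only [FS, mem_inter_iff, mem_Ico, Set.mem_ofPred_eq]
  constructor
  · rintro ⟨⟨h2, h3⟩, h4⟩
    refine ⟨h2, ?_⟩
    rw [div_le_iff₀ ha'] at h2
    rw [lt_div_iff₀ ha'] at h3
    have hfl : ⌊(a : ℝ) * x⌋ = (j : ℤ) := by
      rw [Int.floor_eq_iff]
      constructor
      · push_cast; linarith
      · push_cast; linarith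
    rw [Int.fract, hfl] at h4
    rw [lt_div_iff₀ ha']
    push_cast at h4
    linarith
  · rintro ⟨h2, h3⟩
    have h3' := h3
    rw [div_le_iff₀ ha'] at h2
    rw [lt_div_iff₀ ha'] at h3
    have hfl : ⌊(a : ℝ) * x⌋ = (j : ℤ) := by
      rw [Int.floor_eq_iff]
      constructor
      · push_cast; linarith
      · push_cast; linarith
    refine ⟨⟨by rw [div_le_iff₀ ha']; exact h2, by rw [lt_div_iff₀ ha']; linarith⟩, ?_⟩
    rw [Int.fract, hfl]
    push_cast
    linarith

lemma cells {a : ℕ} (ha : 0 < a) {γ : ℝ} (h0 : 0 ≤ γ) (h1 : γ ≤ 1) (k : ℕ) :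
    volume.real (Ico 0 ((k : ℝ) / a) ∩ FS a γ) = k * γ / a := by
  have ha' : (0 : ℝ) < a := by exact_mod_cast ha
  induction k with
  | zero => simp
  | succ k ih =>
    have hsplit : Ico 0 (((k + 1 : ℕ) : ℝ) / a) ∩ FS a γ =
        (Ico 0 ((k : ℝ) / a) ∩ FS a γ) ∪ (Ico ((k : ℝ) / a) (((k : ℝ) + 1) / a) ∩ FS a γ) := by
      rw [← union_inter_distrib_right, Ico_union_Ico_eq_Ico (by positivity) (by gcongr; linarith)]
      push_cast; rfl
    rw [hsplit, measureReal_union
      (h₁ := ne_top_of_le_ne_top (by simp) (measure_mono inter_subset_left))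
      (h₂ := ne_top_of_le_ne_top (by simp) (measure_mono inter_subset_left)), ih, cell ha h0 h1]
    · rw [Real.volume_real_Ico_of_le (by gcongr; linarith)]
      push_cast; field_simp; ring
    · apply Disjoint.mono inter_subset_left inter_subset_left
      exact Ico_disjoint_Ico_same
    · exact measurableSet_Ico.inter (FS_meas a γ)

lemma mixing_Ico {γ : ℝ} (h0 : 0 ≤ γ) (h1 : γ ≤ 1) (c : ℝ) :
    Tendsto (fun a : ℕ => volume.real (Ico 0 c ∩ FS a γ)) atTop (𝓝 (γ * volume.real (Ico 0 c))) := by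
  rcases le_or_gt c 0 with hc | hc
  · rw [Ico_eq_empty (by simpa using hc)]; simp
  rw [Real.volume_real_Ico_of_le hc.le, sub_zero]
  have hlim : Tendsto (fun a : ℕ => (⌊c * (a : ℝ)⌋₊ : ℝ) / a) atTop (𝓝 c) :=
    (tendsto_nat_floor_mul_div_atTop hc.le).comp tendsto_natCast_atTop_atTop
  have hlim2 : Tendsto (fun a : ℕ => (1 : ℝ) / a) atTop (𝓝 0) := tendsto_one_div_atTop_nhds_zero_nat
  have l1 : Tendsto (fun a : ℕ => γ * ((⌊c * (a : ℝ)⌋₊ : ℝ) / a)) atTop (𝓝 (γ * c)) :=
    hlim.const_mul γ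
  have l2 : Tendsto (fun a : ℕ => γ * ((⌊c * (a : ℝ)⌋₊ : ℝ) / a + 1 / a)) atTop (𝓝 (γ * (c + 0))) :=
    (hlim.add hlim2).const_mul γ
  rw [add_zero] at l2
  refine tendsto_of_tendsto_of_tendsto_of_le_of_le' l1 l2 ?_ ?_
  · filter_upwards [eventually_gt_atTop 0] with a ha
    have ha' : (0 : ℝ) < a := by exact_mod_cast ha
    have h := cells ha h0 h1 ⌊c * (a : ℝ)⌋₊
    have hsub : Ico 0 ((⌊c * (a : ℝ)⌋₊ : ℝ) / a) ∩ FS a γ ⊆ Ico 0 c ∩ FS a γ := by
      apply inter_subset_inter_left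
      apply Ico_subset_Ico_right
      rw [div_le_iff₀ ha']
      exact Nat.floor_le (by positivity)
    have hm := measureReal_mono (μ := volume) hsub
      (ne_top_of_le_ne_top (by simp) (measure_mono (inter_subset_left)))
    rw [h] at hm
    calc γ * ((⌊c * (a : ℝ)⌋₊ : ℝ) / a) = (⌊c * (a : ℝ)⌋₊ : ℝ) * γ / a := by ring
      _ ≤ _ := hm
  · filter_upwards [eventually_gt_atTop 0] with a ha
    have ha' : (0 : ℝ) < a := by exact_mod_cast ha
    have h := cells ha h0 h1 (⌊c * (a : ℝ)⌋₊ + 1)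
    have hsub : Ico 0 c ∩ FS a γ ⊆ Ico 0 (((⌊c * (a : ℝ)⌋₊ + 1 : ℕ) : ℝ) / a) ∩ FS a γ := by
      apply inter_subset_inter_left
      apply Ico_subset_Ico_right
      rw [le_div_iff₀ ha']
      push_cast
      exact (Nat.lt_floor_add_one _).le
    have hm := measureReal_mono (μ := volume) hsub
      (ne_top_of_le_ne_top (by simp) (measure_mono (inter_subset_left)))
    rw [h] at hm
    refine hm.trans (le_of_eq ?_)
    push_cast; ring

lemma fin1 (S : Set ℝ) : volume (Ico (0 : ℝ) 1 ∩ S) ≠ ⊤ :=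
  ne_top_of_le_ne_top (by simp) (measure_mono inter_subset_left)

lemma mixing_aux {γ : ℝ} (h0 : 0 ≤ γ) (h1 : γ ≤ 1) (S : Set ℝ) (hS : MeasurableSet S) :
    Tendsto (fun a : ℕ => volume.real (Ico 0 1 ∩ S ∩ FS a γ)) atTop
      (𝓝 (γ * volume.real (Ico 0 1 ∩ S))) := by
  induction S, hS using MeasurableSpace.induction_on_inter
    (borel_eq_generateFrom_Iio ℝ ▸ (BorelSpace.measurable_eq (α := ℝ))) isPiSystem_Iio with
  | empty => simp
  | basic t ht =>
    obtain ⟨c, rfl⟩ := ht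
    have : Ico (0 : ℝ) 1 ∩ Iio c = Ico 0 (min 1 c) := by
      ext x; simp [and_assoc]
    rw [this]
    exact mixing_Ico h0 h1 _
  | compl t ht ih =>
    have hfull := mixing_Ico h0 h1 1
    have e : ∀ T : Set ℝ, MeasurableSet T → volume.real (Ico 0 1 ∩ tᶜ ∩ T) =
        volume.real (Ico 0 1 ∩ T) - volume.real (Ico 0 1 ∩ t ∩ T) := by
      intro T hT
      have hd : Ico (0 : ℝ) 1 ∩ T = (Ico 0 1 ∩ tᶜ ∩ T) ∪ (Ico 0 1 ∩ t ∩ T) := by
        ext x; by_cases hx : x ∈ t <;> simp [hx]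
      rw [hd, measureReal_union (h₁ := by rw [inter_assoc]; exact fin1 _)
        (h₂ := by rw [inter_assoc]; exact fin1 _)]
      · ring
      · rw [Set.disjoint_left]
        rintro x ⟨⟨-, hx⟩, -⟩ ⟨⟨-, hx'⟩, -⟩
        exact hx hx'
      · exact (measurableSet_Ico.inter ht).inter hT
    have e2 : volume.real (Ico 0 1 ∩ tᶜ) = volume.real (Ico (0 : ℝ) 1) - volume.real (Ico 0 1 ∩ t) := by
      have := e univ MeasurableSet.univ
      simpa using this
    rw [e2, mul_sub]
    refine (hfull.sub ih).congr fun a => ?_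
    rw [e _ (FS_meas a γ)]
  | iUnion f hd hm ih =>
    have e : ∀ T : Set ℝ, MeasurableSet T → HasSum (fun i => volume.real (Ico 0 1 ∩ f i ∩ T))
        (volume.real (Ico 0 1 ∩ (⋃ i, f i) ∩ T)) := by
      intro T hT
      have h2 : Ico (0 : ℝ) 1 ∩ (⋃ i, f i) ∩ T = ⋃ i, (Ico 0 1 ∩ f i ∩ T) := by
        rw [inter_iUnion, iUnion_inter]
      rw [h2]
      have hm2 := measure_iUnion (μ := volume) (f := fun i => Ico (0 : ℝ) 1 ∩ f i ∩ T) (by
        intro i j hij
        apply Disjoint.mono _ _ (hd hij)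
        · exact inter_subset_left.trans inter_subset_right
        · exact inter_subset_left.trans inter_subset_right)
        fun i => (measurableSet_Ico.inter (hm i)).inter hT
      have hfin : volume (⋃ i, (Ico (0 : ℝ) 1 ∩ f i ∩ T)) ≠ ⊤ := by
        rw [← h2, inter_assoc]; exact fin1 _
      rw [hm2] at hfin
      have := ENNReal.hasSum_toReal hfin
      rw [Measure.real, hm2, ENNReal.tsum_toReal_eq (fun i => by rw [inter_assoc]; exact fin1 _)]
      exact this
    have e2 := e univ MeasurableSet.univ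
    simp only [inter_univ] at e2
    have hlim : Tendsto (fun a : ℕ => ∑' i, volume.real (Ico 0 1 ∩ f i ∩ FS a γ)) atTop
        (𝓝 (∑' i, γ * volume.real (Ico 0 1 ∩ f i))) := by
      apply tendsto_tsum_of_dominated_convergence (bound := fun i => volume.real (Ico 0 1 ∩ f i))
        e2.summable
      · intro i; exact ih i
      · filter_upwards with a i
        rw [Real.norm_eq_abs, abs_of_nonneg measureReal_nonneg]
        exact measureReal_mono inter_subset_left (fin1 _)
    rw [tsum_mul_left, e2.tsum_eq] at hlim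
    refine hlim.congr fun a => ?_
    exact (e _ (FS_meas a γ)).tsum_eq

lemma mixing {γ : ℝ} (h0 : 0 ≤ γ) (h1 : γ ≤ 1) {S : Set ℝ} (hS : MeasurableSet S)
    (hS1 : S ⊆ Ico 0 1) :
    Tendsto (fun a : ℕ => volume.real (S ∩ FS a γ)) atTop (𝓝 (γ * volume.real S)) := by
  have := mixing_aux h0 h1 S hS
  rwa [inter_eq_right.2 hS1] at this

/-! ### The blocks -/

/-- the condition number `k` for the set with index `i` -/
def cnd (a : ℕ → ℕ) (i k : ℕ) : Set ℝ := if k = i then FS (a k - 1) (1 / 8) else FS (a k) (5 / 8)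

/-- the first `m` conditions -/
def Em (a : ℕ → ℕ) (i : ℕ) : ℕ → Set ℝ
  | 0 => univ
  | (m + 1) => Em a i m ∩ cnd a i m

/-- the asymptotic density of the first `m` conditions -/
def wt (i : ℕ) : ℕ → ℝ
  | 0 => 1
  | (m + 1) => wt i m * (if m = i then 1 / 8 else 5 / 8)

lemma cnd_meas (a : ℕ → ℕ) (i k : ℕ) : MeasurableSet (cnd a i k) := by
  unfold cnd; split_ifs <;> exact FS_meas _ _

lemma Em_meas (a : ℕ → ℕ) (i m : ℕ) : MeasurableSet (Em a i m) := by
  induction m with
  | zero => exact MeasurableSet.univ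
  | succ m ih => exact ih.inter (cnd_meas _ _ _)

lemma mem_Em {a : ℕ → ℕ} {i m : ℕ} {x : ℝ} : x ∈ Em a i m ↔ ∀ k < m, x ∈ cnd a i k := by
  induction m with
  | zero => simp [Em]
  | succ m ih =>
    rw [Em, mem_inter_iff, ih]
    constructor
    · rintro ⟨h1, h2⟩ k hk
      rcases Nat.lt_succ_iff_lt_or_eq.1 hk with h | h
      · exact h1 k h
      · rw [h]; exact h2
    · intro h
      exact ⟨fun k hk => h k (by omega), h m (by omega)⟩

lemma Em_update (a : ℕ → ℕ) (i m v : ℕ) : Em (Function.update a m v) i m = Em a i m := by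
  ext x
  rw [mem_Em, mem_Em]
  constructor
  · intro h k hk
    have := h k hk
    rwa [cnd, Function.update_of_ne (by omega)] at this
  · intro h k hk
    have := h k hk
    rwa [cnd, Function.update_of_ne (by omega)]

lemma wt_bound (i m : ℕ) : 0 ≤ wt i m := by
  induction m with
  | zero => simp [wt]
  | succ m ih => rw [wt]; split_ifs <;> positivity

lemma wt_eq_of_le {i m : ℕ} (h : m ≤ i) : wt i m = (5 / 8) ^ m := by
  induction m with
  | zero => simp [wt]
  | succ m ih =>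
    rw [wt, ih (by omega), if_neg (by omega), pow_succ]

lemma wt_eq_of_lt {i m : ℕ} (h : i < m) : wt i m = (5 / 8) ^ (m - 1) * (1 / 8) := by
  induction m with
  | zero => omega
  | succ m ih =>
    rw [wt]
    rcases Nat.lt_succ_iff_lt_or_eq.1 h with h1 | h1
    · rw [ih h1, if_neg (by omega), Nat.add_sub_cancel]
      obtain ⟨p, rfl⟩ : ∃ p, m = p + 1 := ⟨m - 1, by omega⟩
      rw [Nat.add_sub_cancel, pow_succ]; ring
    · rw [if_pos h1.symm, wt_eq_of_le h1.ge, Nat.add_sub_cancel]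

/-- sequential choice of the multipliers in prescribed residue classes -/
lemma choose_mult (r : ℕ) (c : ℕ → ℕ) (N : ℕ) (hN : 0 < N) (G : ℕ → Set ℝ)
    (hG : ∀ i, MeasurableSet (G i)) (hG1 : ∀ i, G i ⊆ Ico 0 1) (m : ℕ) :
    ∀ ε : ℝ, 0 < ε → ∃ a : ℕ → ℕ, (∀ k < m, 1 ≤ a k ∧ ∃ t, a k = c k + N * t) ∧
      ∀ i ≤ r, |volume.real (G i ∩ Em a i m) - wt i m * volume.real (G i)| < ε := by
  induction m with
  | zero =>
    intro ε hε
    exact ⟨fun _ => 0, by simp, fun i _ => by simpa [Em, wt] using hε⟩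
  | succ m ih =>
    intro ε hε
    obtain ⟨a, ha1, ha2⟩ := ih (ε / 2) (by linarith)
    -- the new multiplier
    have hlim : ∀ i, Tendsto (fun t : ℕ => volume.real (G i ∩ Em a i m ∩
        (if m = i then FS (c m + N * t - 1) (1 / 8) else FS (c m + N * t) (5 / 8)))) atTop
        (𝓝 ((if m = i then 1 / 8 else 5 / 8) * volume.real (G i ∩ Em a i m))) := by
      intro i
      have hm : MeasurableSet (G i ∩ Em a i m) := (hG i).inter (Em_meas _ _ _)
      have hs : G i ∩ Em a i m ⊆ Ico 0 1 := inter_subset_left.trans (hG1 i)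
      have htend : Tendsto (fun t : ℕ => c m + N * t) atTop atTop := by
        apply tendsto_atTop_mono (f := fun t : ℕ => t) _ tendsto_id
        intro t
        calc t = 1 * t := (one_mul t).symm
          _ ≤ N * t := Nat.mul_le_mul_right t hN
          _ ≤ _ := Nat.le_add_left _ _
      split_ifs with h
      · exact (mixing (by norm_num) (by norm_num) hm hs).comp
          ((tendsto_sub_atTop_nat 1).comp htend)
      · exact (mixing (by norm_num) (by norm_num) hm hs).comp htend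
    have hev : ∀ᶠ t : ℕ in atTop, ∀ i ∈ Finset.range (r + 1), |volume.real (G i ∩ Em a i m ∩
        (if m = i then FS (c m + N * t - 1) (1 / 8) else FS (c m + N * t) (5 / 8))) -
        (if m = i then 1 / 8 else 5 / 8) * volume.real (G i ∩ Em a i m)| < ε / 2 := by
      rw [Filter.eventually_all_finset]
      intro i _
      have := (hlim i).sub_const ((if m = i then 1 / 8 else 5 / 8) * volume.real (G i ∩ Em a i m))
      rw [sub_self] at this
      have h2 := this.abs
      rw [abs_zero] at h2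
      exact h2.eventually_lt_const (by linarith)
    obtain ⟨t, ht1, ht2⟩ := (hev.and (eventually_ge_atTop 1)).exists
    refine ⟨Function.update a m (c m + N * t), ?_, ?_⟩
    · intro k hk
      rcases Nat.lt_succ_iff_lt_or_eq.1 hk with h | h
      · rw [Function.update_of_ne (by omega)]
        exact ha1 k h
      · rw [h, Function.update_self]
        refine ⟨?_, t, rfl⟩
        have : 1 ≤ N * t := Nat.mul_pos hN ht2
        omega
    · intro i hi
      have h1 := ht1 i (Finset.mem_range.2 (by omega))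
      have h2 := ha2 i hi
      rw [Em, Em_update, cnd, Function.update_self, ← inter_assoc, wt]
      set A := volume.real (G i ∩ Em a i m ∩
        (if m = i then FS (c m + N * t - 1) (1 / 8) else FS (c m + N * t) (5 / 8)))
      set B := volume.real (G i ∩ Em a i m)
      have hq0 : (0 : ℝ) ≤ (if m = i then (1 / 8 : ℝ) else 5 / 8) := by split_ifs <;> norm_num
      have hq1 : (if m = i then (1 / 8 : ℝ) else 5 / 8) ≤ 1 := by split_ifs <;> norm_num
      set q := (if m = i then (1 / 8 : ℝ) else 5 / 8)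
      have h3 : |q * (B - wt i m * volume.real (G i))| ≤ |B - wt i m * volume.real (G i)| := by
        rw [abs_mul, abs_of_nonneg hq0]
        exact mul_le_of_le_one_left (abs_nonneg _) hq1
      calc |A - wt i m * q * volume.real (G i)| =
          |(A - q * B) + q * (B - wt i m * volume.real (G i))| := by congr 1; ring
        _ ≤ |A - q * B| + |q * (B - wt i m * volume.real (G i))| := abs_add_le _ _
        _ < ε := by linarith

/-- residues -/
lemma exists_residues (r N₀ : ℕ) : ∃ (n c : ℕ → ℕ) (N : ℕ), 0 < N ∧ StrictMono n ∧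
    (∀ i, N₀ < n i) ∧ ∀ k < r, ∀ t, n k ∣ (c k + N * t - 1) ∧ 1 ≤ c k ∧
      ∀ i < r, i ≠ k → n i ∣ (c k + N * t) := by
  set n : ℕ → ℕ := fun i => Nat.nth Nat.Prime (N₀ + 1 + i) with hn
  have hp : ∀ i, (n i).Prime := fun i => Nat.prime_nth_prime _
  have hmono : StrictMono n := by
    intro i j hij
    exact Nat.nth_strictMono Nat.infinite_setOfPred_prime (by omega)
  have hlt : ∀ i, N₀ < n i := by
    intro i
    have : N₀ + 1 + i ≤ n i := (Nat.nth_strictMono Nat.infinite_setOfPred_prime).id_le _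
    omega
  set P : ℕ → ℕ := fun k => ∏ i ∈ (Finset.range r).erase k, n i with hP
  have hcop : ∀ k, Nat.Coprime (n k) (P k) := by
    intro k
    apply Nat.Coprime.prod_right
    intro i hi
    rw [Nat.coprime_primes (hp k) (hp i)]
    exact fun h => (Finset.ne_of_mem_erase hi) (hmono.injective h).symm
  set c : ℕ → ℕ := fun k => (Nat.chineseRemainder (hcop k) 1 0 : ℕ) with hc
  have hc1 : ∀ k, c k ≡ 1 [MOD n k] := fun k => (Nat.chineseRemainder (hcop k) 1 0).2.1
  have hc2 : ∀ k, c k ≡ 0 [MOD P k] := fun k => (Nat.chineseRemainder (hcop k) 1 0).2.2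
  refine ⟨n, c, ∏ i ∈ Finset.range r, n i, Finset.prod_pos fun i _ => (hp i).pos, hmono, hlt, ?_⟩
  intro k hk t
  have hck : 1 ≤ c k := by
    by_contra hcon
    have h0 : c k = 0 := by omega
    have h1 := hc1 k
    rw [h0] at h1
    have h2 := (Nat.modEq_iff_dvd' (by omega)).1 h1
    simp at h2
    exact (hp k).one_lt.ne' h2
  have hNk : n k ∣ ∏ i ∈ Finset.range r, n i := Finset.dvd_prod_of_mem _ (Finset.mem_range.2 hk)
  refine ⟨?_, hck, ?_⟩
  · have h1 : n k ∣ c k - 1 := (Nat.modEq_iff_dvd' hck).1 (hc1 k).symm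
    have h2 : (c k + (∏ i ∈ Finset.range r, n i) * t - 1) =
      (c k - 1) + (∏ i ∈ Finset.range r, n i) * t := by omega
    rw [h2]
    exact dvd_add h1 (hNk.mul_right t)
  · intro i hi hik
    apply dvd_add
    · have h1 : n i ∣ P k := Finset.dvd_prod_of_mem _ (Finset.mem_erase.2 ⟨hik, Finset.mem_range.2 hi⟩)
      exact h1.trans ((Nat.modEq_zero_iff_dvd).1 (hc2 k))
    · exact (Finset.dvd_prod_of_mem _ (Finset.mem_range.2 hi)).mul_right t

lemma FS_periodic {a n : ℕ} (hn : 0 < n) (h : n ∣ a) (γ x : ℝ) :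
    x + 1 / n ∈ FS a γ ↔ x ∈ FS a γ := by
  obtain ⟨q, rfl⟩ := h
  have hn' : (n : ℝ) ≠ 0 := by exact_mod_cast hn.ne'
  have e : (((n * q : ℕ) : ℝ)) * (x + 1 / n) = ((n * q : ℕ) : ℝ) * x + (q : ℕ) := by
    push_cast; field_simp
  unfold FS
  rw [Set.mem_ofPred_eq, Set.mem_ofPred_eq, e, Int.fract_add_natCast]

/-! ### One block -/

/-- the properties shared by all our finite systems of sets -/
structure Sys (N₀ M : ℕ) (E : ℕ → Set ℝ) : Prop where
  meas : ∀ n, MeasurableSet (E n)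
  per : ∀ n x, x + 1 / (n : ℝ) ∈ E n ↔ x ∈ E n
  emp : ∀ n, n ≤ N₀ ∨ M < n → E n = ∅

lemma cnd_self_left {a : ℕ → ℕ} {k : ℕ} (ha : 1 ≤ a k) {x : ℝ} (hx0 : 0 ≤ x) (hx1 : x < 1 / 2)
    (h : x ∈ cnd a k k) : x ∈ FS (a k) (5 / 8) := by
  rw [cnd, if_pos rfl] at h
  unfold FS at h ⊢
  rw [Set.mem_ofPred_eq] at h ⊢
  have e : ((a k : ℕ) : ℝ) * x = (⌊((a k - 1 : ℕ) : ℝ) * x⌋ : ℤ) + (Int.fract (((a k - 1 : ℕ) : ℝ) * x) + x) := by
    rw [← add_assoc, Int.floor_add_fract, Nat.cast_sub ha]; push_cast; ring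
  rw [e, Int.fract_intCast_add]
  have h0 := Int.fract_nonneg (((a k - 1 : ℕ) : ℝ) * x)
  rw [Int.fract_eq_self.2 ⟨by linarith, by linarith⟩]
  linarith

lemma cnd_self_right {a : ℕ → ℕ} {k : ℕ} (ha : 1 ≤ a k) {x : ℝ} (hx0 : 5 / 8 ≤ x) (hx1 : x < 7 / 8)
    (h : x ∈ cnd a k k) : x ∉ FS (a k) (5 / 8) := by
  rw [cnd, if_pos rfl] at h
  unfold FS at h ⊢
  rw [Set.mem_ofPred_eq] at h ⊢
  have e : ((a k : ℕ) : ℝ) * x = (⌊((a k - 1 : ℕ) : ℝ) * x⌋ : ℤ) + (Int.fract (((a k - 1 : ℕ) : ℝ) * x) + x) := by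
    rw [← add_assoc, Int.floor_add_fract, Nat.cast_sub ha]; push_cast; ring
  rw [e, Int.fract_intCast_add]
  have h0 := Int.fract_nonneg (((a k - 1 : ℕ) : ℝ) * x)
  rw [Int.fract_eq_self.2 ⟨by linarith, by linarith⟩]
  linarith

lemma block (r : ℕ) (hr : 1 ≤ r) (G : Set ℝ) (hG : MeasurableSet G) (hGs : G ⊆ Ico (5 / 8) (7 / 8))
    (N₀ : ℕ) : ∃ (M : ℕ) (E : ℕ → Set ℝ), Sys N₀ M E ∧
      volume.real (Ico 0 (1 / 2) ∩ ⋃ n, E n) ≤ (5 / 8) ^ r ∧
      volume.real (G \ ⋃ n, E n) ≤ (1 - r * (5 / 8) ^ (r - 1) / 16) * volume.real G := by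
  classical
  obtain ⟨n, c, N, hN, hmono, hlt, hres⟩ := exists_residues r N₀
  have hGfin : volume G ≠ ⊤ := ne_top_of_le_ne_top (by simp) (measure_mono hGs)
  -- the test sets
  set G' : ℕ → Set ℝ := fun i => if i < r then G else Ico 0 (1 / 2) with hG'
  have hG'm : ∀ i, MeasurableSet (G' i) := by
    intro i; rw [hG']; dsimp only; split_ifs; exacts [hG, measurableSet_Ico]
  have hG's : ∀ i, G' i ⊆ Ico 0 1 := by
    intro i; rw [hG']; dsimp only
    split_ifs
    · exact hGs.trans (Ico_subset_Ico (by norm_num) (by norm_num))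
    · exact Ico_subset_Ico (by norm_num) (by norm_num)
  -- the two error bounds
  have hv0 : 0 ≤ volume.real G := measureReal_nonneg
  obtain ⟨ε, hε, hε1, hε2⟩ : ∃ ε : ℝ, 0 < ε ∧ ε ≤ (5 / 8) ^ r / 2 ∧
      (volume.real G = 0 ∨ ε ≤ (5 / 8) ^ (r - 1) / 16 * volume.real G) := by
    rcases hv0.eq_or_lt with h | h
    · exact ⟨(5 / 8) ^ r / 2, by positivity, le_refl _, Or.inl h.symm⟩
    · exact ⟨min ((5 / 8) ^ r / 2) ((5 / 8) ^ (r - 1) / 16 * volume.real G), by positivity,
        min_le_left _ _, Or.inr (min_le_right _ _)⟩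
  obtain ⟨a, ha1, ha2⟩ := choose_mult r c N hN G' hG'm hG's r ε hε
  have hage : ∀ k < r, 1 ≤ a k := fun k hk => (ha1 k hk).1
  set E : ℕ → Set ℝ := fun m => {x | ∃ i < r, m = n i ∧ x ∈ Em a i r} with hE
  have hEn : ∀ i < r, E (n i) = Em a i r := by
    intro i hi
    ext x
    constructor
    · rintro ⟨j, hj, hij, hx⟩
      rwa [hmono.injective hij]
    · intro hx
      exact ⟨i, hi, rfl, hx⟩
  have hEe : ∀ m, (∀ i < r, m ≠ n i) → E m = ∅ := by
    intro m hm
    ext x
    simp only [mem_empty_iff_false, iff_false]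
    rintro ⟨i, hi, him, -⟩
    exact hm i hi him
  have hU : (⋃ m, E m) = ⋃ i ∈ Finset.range r, Em a i r := by
    ext x
    simp only [mem_iUnion, Finset.mem_range, exists_prop]
    constructor
    · rintro ⟨m, i, hi, him, hx⟩
      exact ⟨i, hi, hx⟩
    · rintro ⟨i, hi, hx⟩
      exact ⟨n i, i, hi, rfl, hx⟩
  refine ⟨n r, E, ⟨?_, ?_, ?_⟩, ?_, ?_⟩
  · intro m
    by_cases hm : ∃ i < r, m = n i
    · obtain ⟨i, hi, rfl⟩ := hm
      rw [hEn i hi]; exact Em_meas _ _ _
    · push Not at hm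
      rw [hEe m hm]; exact MeasurableSet.empty
  · intro m x
    by_cases hm : ∃ i < r, m = n i
    · obtain ⟨i, hi, rfl⟩ := hm
      rw [hEn i hi, mem_Em, mem_Em]
      have hni : 0 < n i := lt_of_le_of_lt (Nat.zero_le _) (hlt i)
      apply forall₂_congr
      intro k hk
      obtain ⟨t, ht⟩ := (ha1 k hk).2
      obtain ⟨h1, -, h3⟩ := hres k hk t
      rw [← ht] at h1 h3
      unfold cnd
      split_ifs with hki
      · subst hki
        exact FS_periodic hni h1 _ _
      · exact FS_periodic hni (h3 i hi (Ne.symm hki)) _ _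
    · push Not at hm
      rw [hEe m hm]; simp
  · intro m hm
    apply hEe
    intro i hi him
    rcases hm with h | h
    · have := hlt i; omega
    · have := hmono hi; omega
  · -- the cost
    have hsub : Ico (0 : ℝ) (1 / 2) ∩ (⋃ m, E m) ⊆ G' r ∩ Em a r r := by
      rintro x ⟨hx, hx2⟩
      have hGr : G' r = Ico 0 (1 / 2) := by rw [hG']; simp
      refine ⟨by rw [hGr]; exact hx, ?_⟩
      rw [hU] at hx2
      simp only [mem_iUnion, Finset.mem_range, exists_prop] at hx2
      obtain ⟨i, hi, hxi⟩ := hx2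
      rw [mem_Em] at hxi ⊢
      intro k hk
      rw [cnd, if_neg (by omega)]
      have hxk := hxi k hk
      rcases eq_or_ne k i with h | h
      · subst h
        exact cnd_self_left (hage k hk) hx.1 hx.2 hxk
      · rwa [cnd, if_neg h] at hxk
    have h1 := measureReal_mono (μ := volume) hsub
      (ne_top_of_le_ne_top (by simp) (measure_mono (inter_subset_left.trans (hG's r))))
    have h2 := ha2 r le_rfl
    have hGr : G' r = Ico 0 (1 / 2) := by rw [hG']; simp
    rw [wt_eq_of_le le_rfl] at h2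
    have h3 : volume.real (G' r) = 1 / 2 := by
      rw [hGr, Real.volume_real_Ico_of_le (by norm_num)]; norm_num
    rw [h3] at h2
    have h4 := (abs_lt.1 h2).2
    linarith
  · -- the gain
    have hdisj : Set.PairwiseDisjoint (↑(Finset.range r)) (fun i => G ∩ Em a i r) := by
      intro i hi j hj hij
      have hi' : i < r := by simpa using hi
      have hj' : j < r := by simpa using hj
      change Disjoint (G ∩ Em a i r) (G ∩ Em a j r)
      rw [Set.disjoint_left]
      rintro x ⟨hxG, hxi⟩ ⟨-, hxj⟩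
      rw [mem_Em] at hxi hxj
      have hx := hGs hxG
      have h1 := cnd_self_right (hage i hi') hx.1 hx.2 (hxi i hi')
      have h2 := hxj i hi'
      rw [cnd, if_neg hij] at h2
      exact h1 h2
    have hsum : volume.real (G ∩ ⋃ m, E m) = ∑ i ∈ Finset.range r, volume.real (G ∩ Em a i r) := by
      rw [hU, inter_iUnion₂]
      exact measureReal_biUnion_finset hdisj (fun i _ => hG.inter (Em_meas _ _ _))
        (h := fun i _ => ne_top_of_le_ne_top hGfin (measure_mono inter_subset_left))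
    have hlow : ∀ i ∈ Finset.range r, (5 / 8) ^ (r - 1) / 16 * volume.real G ≤
        volume.real (G ∩ Em a i r) := by
      intro i hi
      have hi' : i < r := by simpa using hi
      have h2 := ha2 i hi'.le
      have hGi : G' i = G := by rw [hG']; simp [hi']
      rw [hGi, wt_eq_of_lt hi'] at h2
      rcases hε2 with h | h
      · rw [h, mul_zero]; exact measureReal_nonneg
      · have h4 := (abs_lt.1 h2).1
        linarith
    have hsum2 := Finset.sum_le_sum hlow
    rw [← hsum, Finset.sum_const, Finset.card_range, nsmul_eq_mul] at hsum2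
    have hEm : MeasurableSet (⋃ m, E m) := by
      rw [hU]; exact Finset.measurableSet_biUnion _ fun i _ => Em_meas _ _ _
    have hsplit := measureReal_sdiff_add_inter (μ := volume) (s := G) (t := ⋃ m, E m) hEm hGfin
    linarith

lemma Sys.iUnion_meas {N₀ M : ℕ} {E : ℕ → Set ℝ} (h : Sys N₀ M E) : MeasurableSet (⋃ n, E n) :=
  MeasurableSet.iUnion h.meas

/-- `K` successive blocks of length `r` -/
lemma blocks (r : ℕ) (hr : 1 ≤ r) (N₀ : ℕ) (hr2 : 0 ≤ 1 - (r : ℝ) * (5 / 8) ^ (r - 1) / 16)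
    (K : ℕ) : ∃ (M : ℕ) (E : ℕ → Set ℝ), Sys N₀ M E ∧
      volume.real (Ico 0 (1 / 2) ∩ ⋃ n, E n) ≤ K * (5 / 8) ^ r ∧
      volume.real (Ico (5 / 8) (7 / 8) \ ⋃ n, E n) ≤ (1 - r * (5 / 8) ^ (r - 1) / 16) ^ K := by
  induction K with
  | zero =>
    refine ⟨0, fun _ => ∅, ⟨fun _ => MeasurableSet.empty, by simp, by simp⟩, by simp, ?_⟩
    simp only [iUnion_empty, sdiff_empty, pow_zero]
    rw [Real.volume_real_Ico_of_le (by norm_num)]; norm_num
  | succ K ih =>
    obtain ⟨M, E, hE, h1, h2⟩ := ih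
    obtain ⟨M', E', hE', h1', h2'⟩ := block r hr (Ico (5 / 8) (7 / 8) \ ⋃ n, E n)
      (measurableSet_Ico.diff hE.iUnion_meas) sdiff_subset (max N₀ M)
    have hU : (⋃ n, (E n ∪ E' n)) = (⋃ n, E n) ∪ ⋃ n, E' n := iUnion_union_distrib _ _
    refine ⟨max M M', fun n => E n ∪ E' n, ⟨fun n => (hE.meas n).union (hE'.meas n), ?_, ?_⟩, ?_, ?_⟩
    · intro n x
      rw [mem_union, mem_union, hE.per, hE'.per]
    · intro n hn
      rw [hE.emp n (by omega), hE'.emp n (by omega), union_empty]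
    · rw [hU, inter_union_distrib_left]
      refine (measureReal_union_le _ _).trans ?_
      push_cast
      linarith
    · rw [hU, ← sdiff_sdiff, pow_succ, mul_comm]
      exact h2'.trans (mul_le_mul_of_nonneg_left h2 hr2)

lemma round (ε : ℝ) (hε : 0 < ε) (N₀ : ℕ) : ∃ (M : ℕ) (E : ℕ → Set ℝ), Sys N₀ M E ∧
      volume.real (Ico 0 (1 / 2) ∩ ⋃ n, E n) ≤ ε ∧
      volume.real (Ico (5 / 8) (7 / 8) \ ⋃ n, E n) ≤ ε := by
  -- constants
  obtain ⟨A, hA0, hA⟩ : ∃ A : ℝ, 0 < A ∧ Real.exp (-A) ≤ ε := by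
    refine ⟨max 1 (-Real.log ε), by positivity, ?_⟩
    calc Real.exp (-(max 1 (-Real.log ε))) ≤ Real.exp (Real.log ε) := by
          apply Real.exp_le_exp.2
          have := le_max_right 1 (-Real.log ε); linarith
      _ = ε := Real.exp_log hε
  have hlim1 : Tendsto (fun r : ℕ => 10 * A / (r : ℝ) + (5 / 8 : ℝ) ^ r) atTop (𝓝 (0 + 0)) :=
    (tendsto_const_div_atTop_nhds_zero_nat _).add
      (tendsto_pow_atTop_nhds_zero_of_lt_one (by norm_num) (by norm_num))
  have hlim2 : Tendsto (fun r : ℕ => (r : ℝ) * (5 / 8 : ℝ) ^ r) atTop (𝓝 0) :=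
    tendsto_self_mul_const_pow_of_lt_one (by norm_num) (by norm_num)
  rw [add_zero] at hlim1
  obtain ⟨r, ⟨h1, h2⟩, h3⟩ := (((hlim1.eventually_lt_const hε).and
    (hlim2.eventually_lt_const (zero_lt_one))).and (eventually_ge_atTop 1)).exists
  obtain ⟨p, rfl⟩ : ∃ p, r = p + 1 := ⟨r - 1, by omega⟩
  have hrr : (p + 1 : ℕ) * (5 / 8 : ℝ) ^ (p + 1 - 1) / 16 ≤ 1 := by
    rw [Nat.add_sub_cancel]
    rw [pow_succ] at h2
    linarith
  set q : ℝ := (p + 1 : ℕ) * (5 / 8 : ℝ) ^ (p + 1 - 1) / 16 with hq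
  have hq0 : 0 < q := by positivity
  obtain ⟨M, E, hE, h4, h5⟩ := blocks (p + 1) h3 N₀ (by linarith) ⌈A / q⌉₊
  refine ⟨M, E, hE, h4.trans ?_, h5.trans ?_⟩
  · have hK : (⌈A / q⌉₊ : ℝ) ≤ A / q + 1 := (Nat.ceil_lt_add_one (by positivity)).le
    have : A / q * (5 / 8 : ℝ) ^ (p + 1) = 10 * A / ((p + 1 : ℕ) : ℝ) := by
      rw [hq, Nat.add_sub_cancel]
      have hp : ((p + 1 : ℕ) : ℝ) ≠ 0 := by positivity
      field_simp
      ring
    calc (⌈A / q⌉₊ : ℝ) * (5 / 8) ^ (p + 1) ≤ (A / q + 1) * (5 / 8) ^ (p + 1) := by gcongr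
      _ = 10 * A / ((p + 1 : ℕ) : ℝ) + (5 / 8 : ℝ) ^ (p + 1) := by rw [add_mul, this, one_mul]
      _ ≤ ε := h1.le
  · calc (1 - q) ^ ⌈A / q⌉₊ ≤ (Real.exp (-q)) ^ ⌈A / q⌉₊ := by
          apply pow_le_pow_left₀ (by linarith)
          have := Real.add_one_le_exp (-q); linarith
      _ = Real.exp (-(⌈A / q⌉₊ * q)) := by rw [← Real.exp_nat_mul]; ring_nf
      _ ≤ Real.exp (-A) := by
          apply Real.exp_le_exp.2
          have h6 : A / q ≤ ⌈A / q⌉₊ := Nat.le_ceil _
          rw [div_le_iff₀ hq0] at h6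
          linarith
      _ ≤ ε := hA

/-! ### The construction -/

/-- Admissible sequences: measurable, uniformly bounded, `f_n` of period `1/n` (`n ≥ 1`).
(The value of `f 0` is irrelevant.) -/
def Admissible (f : ℕ → ℝ → ℝ) : Prop :=
  (∀ n, 1 ≤ n → Measurable (f n)) ∧ (∃ M : ℝ, ∀ n, 1 ≤ n → ∀ x, |f n x| ≤ M) ∧
    ∀ n, 1 ≤ n → ∀ x, f n (x + 1 / (n : ℝ)) = f n x

lemma limsup_indicator_zero {T : ℕ → Set ℝ} {x : ℝ} (h : ∀ᶠ n in atTop, x ∉ T n) :
    limsup (fun n => (T n).indicator (fun _ => (1 : ℝ)) x) atTop = 0 := by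
  have : Tendsto (fun n => (T n).indicator (fun _ => (1 : ℝ)) x) atTop (𝓝 0) := by
    apply tendsto_const_nhds.congr'
    filter_upwards [h] with n hn
    rw [indicator_of_notMem hn]
  exact this.limsup_eq

lemma limsup_indicator_one {T : ℕ → Set ℝ} {x : ℝ} (h : ∃ᶠ n in atTop, x ∈ T n) :
    limsup (fun n => (T n).indicator (fun _ => (1 : ℝ)) x) atTop = 1 := by
  have hle : ∀ n, (T n).indicator (fun _ => (1 : ℝ)) x ≤ 1 := by
    intro n; unfold indicator; split_ifs <;> norm_num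
  have hge : ∀ n, 0 ≤ (T n).indicator (fun _ => (1 : ℝ)) x := by
    intro n; unfold indicator; split_ifs <;> norm_num
  apply le_antisymm
  · exact limsup_le_of_le (isCoboundedUnder_le_of_le atTop hge)
      (Eventually.of_forall hle)
  · apply le_limsup_of_frequently_le
    · exact h.mono fun n hn => by rw [indicator_of_mem hn]
    · exact isBoundedUnder_of ⟨1, hle⟩

theorem main : ∃ T : ℕ → Set ℝ, (∀ n, MeasurableSet (T n)) ∧
    (∀ n, ∀ x, x + 1 / (n : ℝ) ∈ T n ↔ x ∈ T n) ∧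
    (∀ᵐ x ∂(volume : Measure ℝ), x ∈ Ico (0 : ℝ) (1 / 2) → ∀ᶠ n in atTop, x ∉ T n) ∧
    (∀ᵐ x ∂(volume : Measure ℝ), x ∈ Ico (5 / 8 : ℝ) (7 / 8) → ∃ᶠ n in atTop, x ∈ T n) := by
  choose Mf Ef hS h1 h2 using fun (b N₀ : ℕ) => round ((1 / 2) ^ b) (by positivity) N₀
  -- the successive levels
  set N : ℕ → ℕ := fun b => Nat.rec 0 (fun b Nb => max (Mf b Nb) (Nb + 1)) b with hN
  have hNs : ∀ b, N (b + 1) = max (Mf b (N b)) (N b + 1) := fun b => rfl
  have hNmono : StrictMono N := by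
    apply strictMono_nat_of_lt_succ
    intro b
    rw [hNs]
    exact lt_of_lt_of_le (Nat.lt_succ_self _) (le_max_right _ _)
  set F : ℕ → ℕ → Set ℝ := fun b => Ef b (N b) with hF
  have hFS : ∀ b, Sys (N b) (N (b + 1)) (F b) := by
    intro b
    refine ⟨(hS b (N b)).meas, (hS b (N b)).per, fun n hn => (hS b (N b)).emp n ?_⟩
    rcases hn with h | h
    · exact Or.inl h
    · right
      have : Mf b (N b) ≤ N (b + 1) := by rw [hNs]; exact le_max_left _ _
      omega
  set T : ℕ → Set ℝ := fun n => ⋃ b, F b n with hT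
  have hU : ∀ b, MeasurableSet (⋃ n, F b n) := fun b => (hFS b).iUnion_meas
  refine ⟨T, fun n => MeasurableSet.iUnion fun b => (hFS b).meas n, ?_, ?_, ?_⟩
  · intro n x
    simp only [hT, mem_iUnion]
    exact exists_congr fun b => (hFS b).per n x
  · -- Borel–Cantelli on `[0,1/2)`
    have hsum : (∑' b, volume (Ico (0 : ℝ) (1 / 2) ∩ ⋃ n, F b n)) ≠ ⊤ := by
      have hle : ∀ b, volume (Ico (0 : ℝ) (1 / 2) ∩ ⋃ n, F b n) ≤ ENNReal.ofReal ((1 / 2) ^ b) := by
        intro b
        rw [← ofReal_measureReal (h := ne_top_of_le_ne_top (by simp) (measure_mono inter_subset_left))]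
        exact ENNReal.ofReal_le_ofReal (h1 b (N b))
      refine ne_top_of_le_ne_top ?_ (ENNReal.tsum_le_tsum hle)
      rw [← ENNReal.ofReal_tsum_of_nonneg (fun b => by positivity)
        (summable_geometric_of_lt_one (by norm_num) (by norm_num))]
      exact ENNReal.ofReal_ne_top
    have hBC := ae_eventually_notMem hsum
    filter_upwards [hBC] with x hx hx1
    obtain ⟨B, hB⟩ := eventually_atTop.1 hx
    rw [eventually_atTop]
    refine ⟨N B + 1, fun n hn hxn => ?_⟩
    simp only [hT, mem_iUnion] at hxn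
    obtain ⟨b, hb⟩ := hxn
    have hbB : b < B := by
      by_contra hcon
      exact hB b (by omega) ⟨hx1, mem_iUnion.2 ⟨n, hb⟩⟩
    have hle : N (b + 1) ≤ N B := hNmono.monotone (show b + 1 ≤ B by omega)
    rw [(hFS b).emp n (Or.inr (by omega))] at hb
    exact hb
  · have hsum : (∑' b, volume (Ico (5 / 8 : ℝ) (7 / 8) \ ⋃ n, F b n)) ≠ ⊤ := by
      have hle : ∀ b, volume (Ico (5 / 8 : ℝ) (7 / 8) \ ⋃ n, F b n) ≤
          ENNReal.ofReal ((1 / 2) ^ b) := by
        intro b
        rw [← ofReal_measureReal (h := ne_top_of_le_ne_top (by simp) (measure_mono sdiff_subset))]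
        exact ENNReal.ofReal_le_ofReal (h2 b (N b))
      refine ne_top_of_le_ne_top ?_ (ENNReal.tsum_le_tsum hle)
      rw [← ENNReal.ofReal_tsum_of_nonneg (fun b => by positivity)
        (summable_geometric_of_lt_one (by norm_num) (by norm_num))]
      exact ENNReal.ofReal_ne_top
    have hBC := ae_eventually_notMem hsum
    filter_upwards [hBC] with x hx hx1
    obtain ⟨B, hB⟩ := eventually_atTop.1 hx
    rw [frequently_atTop]
    intro a
    have hnot := hB (max B a) (le_max_left _ _)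
    have hmem : x ∈ ⋃ n, F (max B a) n := by
      by_contra hcon
      exact hnot ⟨hx1, hcon⟩
    obtain ⟨n, hn⟩ := mem_iUnion.1 hmem
    refine ⟨n, ?_, mem_iUnion.2 ⟨_, hn⟩⟩
    by_contra hcon
    have h3 : max B a ≤ N (max B a) := hNmono.id_le _
    have h4 : a ≤ max B a := le_max_right _ _
    rw [(hFS (max B a)).emp n (Or.inl (by omega))] at hn
    exact hn

lemma not_ae_const {g : ℝ → ℝ} (h0 : ∀ᵐ x ∂(volume : Measure ℝ), x ∈ Ico (0 : ℝ) (1 / 2) → g x = 0)
    (h1 : ∀ᵐ x ∂(volume : Measure ℝ), x ∈ Ico (5 / 8 : ℝ) (7 / 8) → g x = 1) :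
    ¬ ∃ c : ℝ, ∀ᵐ x ∂(volume : Measure ℝ), g x = c := by
  rintro ⟨c, hc⟩
  have e0 : c = 0 := by
    have h : ∀ᵐ x ∂(volume : Measure ℝ), x ∈ Ico (0 : ℝ) (1 / 2) → c = 0 := by
      filter_upwards [h0, hc] with x hx hx2 hx3
      rw [← hx2, hx hx3]
    by_contra hcon
    have : volume (Ico (0 : ℝ) (1 / 2)) = 0 := by
      apply measure_mono_null _ h
      intro x hx hx2
      exact hcon (hx2 hx)
    rw [Real.volume_Ico] at this
    norm_num at this
  have e1 : c = 1 := by
    have h : ∀ᵐ x ∂(volume : Measure ℝ), x ∈ Ico (5 / 8 : ℝ) (7 / 8) → c = 1 := by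
      filter_upwards [h1, hc] with x hx hx2 hx3
      rw [← hx2, hx hx3]
    by_contra hcon
    have : volume (Ico (5 / 8 : ℝ) (7 / 8)) = 0 := by
      apply measure_mono_null _ h
      intro x hx hx2
      exact hcon (hx2 hx)
    rw [Real.volume_Ico] at this
    norm_num at this
  rw [e0] at e1
  norm_num at e1

/-- **Answer to Q1: no.** There is an admissible sequence `f` (of indicator functions of Borel sets)
such that `limsup f_n = 0` a.e. on `[0,1/2)` and `limsup f_n = 1` a.e. on `[5/8,7/8)`, so that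
`limsup f_n` is not a.e. constant; and `-f` is an admissible sequence whose `liminf` is not a.e.
constant. -/
theorem result : ∃ f : ℕ → ℝ → ℝ, Admissible f ∧ Admissible (fun n x => -f n x) ∧
    (∀ n x, f n x = 0 ∨ f n x = 1) ∧
    (∀ᵐ x ∂(volume : Measure ℝ), x ∈ Ico (0 : ℝ) (1 / 2) → limsup (fun n => f n x) atTop = 0) ∧
    (∀ᵐ x ∂(volume : Measure ℝ), x ∈ Ico (5 / 8 : ℝ) (7 / 8) → limsup (fun n => f n x) atTop = 1) ∧
    (¬ ∃ c : ℝ, ∀ᵐ x ∂(volume : Measure ℝ), limsup (fun n => f n x) atTop = c) ∧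
    (¬ ∃ c : ℝ, ∀ᵐ x ∂(volume : Measure ℝ), liminf (fun n => -f n x) atTop = c) := by
  obtain ⟨T, hTm, hTp, hT0, hT1⟩ := main
  set f : ℕ → ℝ → ℝ := fun n => (T n).indicator (fun _ => (1 : ℝ)) with hf
  have hval : ∀ n x, f n x = 0 ∨ f n x = 1 := by
    intro n x
    rw [hf]; dsimp only; unfold indicator
    split_ifs
    · right; rfl
    · left; rfl
  have hbd : ∀ n x, |f n x| ≤ 1 := by
    intro n x
    rcases hval n x with h | h <;> rw [h] <;> norm_num
  have hmeas : ∀ n, Measurable (f n) := fun n => measurable_const.indicator (hTm n)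
  have hper : ∀ n x, f n (x + 1 / (n : ℝ)) = f n x := by
    intro n x
    rw [hf]; dsimp only
    by_cases hx : x ∈ T n
    · rw [indicator_of_mem hx, indicator_of_mem ((hTp n x).2 hx)]
    · rw [indicator_of_notMem hx, indicator_of_notMem (fun h => hx ((hTp n x).1 h))]
  have h0 : ∀ᵐ x ∂(volume : Measure ℝ), x ∈ Ico (0 : ℝ) (1 / 2) →
      limsup (fun n => f n x) atTop = 0 := by
    filter_upwards [hT0] with x hx hx1
    exact limsup_indicator_zero (hx hx1)
  have h1 : ∀ᵐ x ∂(volume : Measure ℝ), x ∈ Ico (5 / 8 : ℝ) (7 / 8) →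
      limsup (fun n => f n x) atTop = 1 := by
    filter_upwards [hT1] with x hx hx1
    exact limsup_indicator_one (hx hx1)
  have hnc := not_ae_const h0 h1
  refine ⟨f, ⟨fun n _ => hmeas n, ⟨1, fun n _ => hbd n⟩, fun n _ => hper n⟩,
    ⟨fun n _ => (hmeas n).neg, ⟨1, fun n _ x => by rw [abs_neg]; exact hbd n x⟩,
      fun n _ x => by show -f n (x + 1 / (n : ℝ)) = -f n x; rw [hper n x]⟩, hval, h0, h1, hnc, ?_⟩
  rintro ⟨c, hc⟩
  apply hnc
  refine ⟨-c, ?_⟩
  filter_upwards [hc] with x hx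
  have hlim : liminf (fun n => -f n x) atTop = -limsup (fun n => f n x) atTop := by
    have hb1 : IsBoundedUnder (· ≤ ·) atTop (fun n => f n x) :=
      isBoundedUnder_of ⟨1, fun n => (le_abs_self _).trans (hbd n x)⟩
    have hb2 : IsBoundedUnder (· ≥ ·) atTop (fun n => f n x) :=
      isBoundedUnder_of ⟨-1, fun n => (abs_le.1 (hbd n x)).1⟩
    have := (antitone_iff_forall_lt.2 (fun a b (h : a < b) => neg_le_neg h.le) :
      Antitone (fun y : ℝ => -y)).map_limsup_of_continuousAt (fun n => f n x)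
      (continuous_neg.continuousAt) hb1 (hb2.isCoboundedUnder_le)
    exact this.symm
  rw [hlim] at hx
  linarith

end

end Pool.Agent.Results.MP_942486_an.LimsupNotConstant
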